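import Mathlib

/-!
Sets of directions of positive outer Lebesgue measure.
-/

set_option autoImplicit false

namespace Pool.Agent.V11222.KO

open Set MeasureTheory

/-- pigeonhole principle for sets of positive outer measure -/
theorem pigeon {X : Type*} [MeasurableSpace X] {μ : Measure X} {κ : Type*} [Countable κ]
    {V : Set X} (hV : μ V ≠ 0) (S : κ → Set X) (h : V ⊆ ⋃ k, S k) : ∃ k, μ (V ∩ S k) ≠ 0 := by
  by_contra hcon
  push Not at hcon
  apply hV
  have h1 : V ⊆ ⋃ k, V ∩ S k := by
    intro x hx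
    obtain ⟨k, hk⟩ := mem_iUnion.1 (h hx)
    exact mem_iUnion.2 ⟨k, hx, hk⟩
  exact measure_mono_null h1 (measure_iUnion_null hcon)

/-- removing a null set -/
theorem diff_null {X : Type*} [MeasurableSpace X] {μ : Measure X} {V N : Set X} (hV : μ V ≠ 0)
    (hN : μ N = 0) : μ (V \ N) ≠ 0 := by
  rw [measure_sdiff_null hN]; exact hV

variable {ι : Type*} [Fintype ι]

theorem null_coord (i : ι) : volume {v : ι → ℝ | v i = 0} = 0 := by
  rw [volume_pi]
  exact Measure.pi_hyperplane _ i 0

theorem null_parallel {i j : ι} (hij : i ≠ j) {w : ι → ℝ} (hw : w j ≠ 0) :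
    volume {v : ι → ℝ | v i * w j = v j * w i} = 0 := by
  classical
  obtain ⟨φ, hφ⟩ : ∃ φ : (ι → ℝ) →ₗ[ℝ] ℝ, ∀ v, φ v = v i * w j - v j * w i :=
    ⟨w j • LinearMap.proj i - w i • LinearMap.proj j, fun v => by
      simp only [LinearMap.sub_apply, LinearMap.smul_apply, LinearMap.proj_apply, smul_eq_mul]
      ring⟩
  have h1 : {v : ι → ℝ | v i * w j = v j * w i} = (LinearMap.ker φ : Set (ι → ℝ)) := by
    ext v
    simp only [mem_ofPred_eq, SetLike.mem_coe, LinearMap.mem_ker, hφ, sub_eq_zero]
  rw [h1]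
  apply Measure.addHaar_submodule
  intro htop
  have h2 : Pi.single i (1 : ℝ) ∈ LinearMap.ker φ := by rw [htop]; trivial
  rw [LinearMap.mem_ker, hφ] at h2
  simp [Pi.single_eq_same, Pi.single_eq_of_ne hij.symm] at h2
  exact hw h2

/-- the segments whose projection to the coordinate `i` contains a suitable rational number -/
theorem common_value (i : ι) {V : Set (ι → ℝ)} (hV : volume V ≠ 0) (a : (ι → ℝ) → ι → ℝ)
    (hne : ∀ v ∈ V, v i ≠ 0) {α β : ℝ} (hαβ : α < β) :
    ∃ r : ℝ, volume {v ∈ V | ∃ t ∈ Ioo α β, a v i + t * v i = r} ≠ 0 := by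
  obtain ⟨r, hr⟩ := pigeon hV (fun r : ℚ => {v : ι → ℝ | ∃ t ∈ Ioo α β, a v i + t * v i = r}) (by
    intro v hv
    have hvi := hne v hv
    have hne' : a v i + α * v i ≠ a v i + β * v i := by
      intro h
      have : (β - α) * v i = 0 := by linarith
      rcases mul_eq_zero.1 this with h | h
      · linarith
      · exact hvi h
    rcases lt_or_gt_of_ne hne' with hlt | hlt
    · obtain ⟨r, hr1, hr2⟩ := exists_rat_btwn hlt
      have hpos : 0 < v i := by
        by_contra hcon
        push Not at hcon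
        nlinarith
      refine mem_iUnion.2 ⟨r, ((r : ℝ) - a v i) / v i, ⟨?_, ?_⟩, ?_⟩
      · rw [lt_div_iff₀ hpos]; linarith
      · rw [div_lt_iff₀ hpos]; linarith
      · rw [div_mul_cancel₀ _ hvi]; ring
    · obtain ⟨r, hr1, hr2⟩ := exists_rat_btwn hlt
      have hneg : v i < 0 := by
        by_contra hcon
        push Not at hcon
        nlinarith
      refine mem_iUnion.2 ⟨r, ((r : ℝ) - a v i) / v i, ⟨?_, ?_⟩, ?_⟩
      · rw [lt_div_iff_of_neg hneg]; linarith
      · rw [div_lt_iff_of_neg hneg]; linarith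
      · rw [div_mul_cancel₀ _ hvi]; ring)
  exact ⟨r, hr⟩

/-- restriction of functions to the coordinates with `p` -/
def rst (p : ι → Prop) (v : ι → ℝ) : {k // p k} → ℝ := fun k => v k

theorem rst_image (p : ι → Prop) [DecidablePred p] [inst : Fintype {k // p k}]
    {V : Set (ι → ℝ)} (hV : volume V ≠ 0) : volume (rst p '' V) ≠ 0 := by
  obtain rfl : inst = Subtype.fintype p := Subsingleton.elim _ _
  intro h
  apply hV
  have hq : Measure.QuasiMeasurePreserving (rst p : (ι → ℝ) → ({k // p k} → ℝ)) volume volume := by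
    have h1 := (volume_preserving_piEquivPiSubtypeProd (fun _ : ι => ℝ) p).quasiMeasurePreserving
    have h2 : Measure.QuasiMeasurePreserving
        (Prod.fst : ({k // p k} → ℝ) × ({k // ¬ p k} → ℝ) → ({k // p k} → ℝ)) volume volume :=
      Measure.quasiMeasurePreserving_fst
    exact h2.comp h1
  exact measure_mono_null (subset_preimage_image _ _) (hq.preimage_null h)

end Pool.Agent.V11222.KO
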