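import Pool.Agent.V11222.KO.Planar
import Pool.Agent.V11222.KO.Rich
import Pool.Agent.V11160.OP.Op

/-!
Sets closed under the coordinatewise median which contain segments in many directions.
-/

set_option autoImplicit false

namespace Pool.Agent.V11222.KO

open Set MeasureTheory Pool.Agent.V11160.OP

theorem med_left {x x' q c : ℝ} (h : 0 ≤ (x' - x) * c) (h1 : 0 < (x - q) * c)
    (h2 : 0 < (x' - q) * c) : med x x' q = x := by
  rcases lt_trichotomy c 0 with hc | hc | hc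
  · have e1 : x' ≤ x := by nlinarith
    have e2 : x < q := by nlinarith
    have e3 : x' < q := by nlinarith
    unfold med
    rw [min_eq_right e1, min_eq_left e2.le, min_eq_left e3.le]
    simp [e1]
  · subst hc; simp at h1
  · have e1 : x ≤ x' := by nlinarith
    have e2 : q < x := by nlinarith
    have e3 : q < x' := by nlinarith
    unfold med
    rw [min_eq_left e1, min_eq_right e2.le, min_eq_right e3.le]
    simp [e2.le]

theorem med_right {x x' q c : ℝ} (h : 0 ≤ (x' - x) * c) (h1 : (x - q) * c < 0)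
    (h2 : (x' - q) * c < 0) : med x x' q = x' := by
  rcases lt_trichotomy c 0 with hc | hc | hc
  · have e1 : x' ≤ x := by nlinarith
    have e2 : q < x := by nlinarith
    have e3 : q < x' := by nlinarith
    unfold med
    rw [min_eq_right e1, min_eq_right e2.le, min_eq_right e3.le]
    simp [e3.le]
  · subst hc; simp at h1
  · have e1 : x ≤ x' := by nlinarith
    have e2 : x < q := by nlinarith
    have e3 : x' < q := by nlinarith
    unfold med
    rw [min_eq_left e1, min_eq_left e2.le, min_eq_left e3.le]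
    simp [e1]

section

variable {ι : Type}

/-- the coordinate `k` of the segment is on one side of the point `q` -/
def Sided (a v q : ι → ℝ) (α β : ℝ) (k : ι) : Prop :=
  (∀ t ∈ Ioo α β, 0 < (a k + t * v k - q k) * v k) ∨ (∀ t ∈ Ioo α β, (a k + t * v k - q k) * v k < 0)

/-- a point of `K` separates the coordinates `i` and `j` of the segment -/
def Sep (K : Set (ι → ℝ)) (a v : ι → ℝ) (i j : ι) (α β : ℝ) : Prop :=
  ∃ q ∈ K, (∀ k, Sided a v q α β k) ∧
    (((∀ t ∈ Ioo α β, 0 < (a i + t * v i - q i) * v i) ∧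
      (∀ t ∈ Ioo α β, (a j + t * v j - q j) * v j < 0)) ∨
     ((∀ t ∈ Ioo α β, (a i + t * v i - q i) * v i < 0) ∧
      (∀ t ∈ Ioo α β, 0 < (a j + t * v j - q j) * v j)))

theorem Sep.mono {K : Set (ι → ℝ)} {a v : ι → ℝ} {i j : ι} {α β α' β' : ℝ}
    (h : Sep K a v i j α β) (h1 : α ≤ α') (h2 : β' ≤ β) : Sep K a v i j α' β' := by
  obtain ⟨q, hq, h3, h4⟩ := h
  have hs : Ioo α' β' ⊆ Ioo α β := Ioo_subset_Ioo h1 h2
  refine ⟨q, hq, fun k => ?_, ?_⟩
  · rcases h3 k with h3 | h3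
    · exact Or.inl fun t ht => h3 t (hs ht)
    · exact Or.inr fun t ht => h3 t (hs ht)
  · rcases h4 with h4 | h4
    · exact Or.inl ⟨fun t ht => h4.1 t (hs ht), fun t ht => h4.2 t (hs ht)⟩
    · exact Or.inr ⟨fun t ht => h4.1 t (hs ht), fun t ht => h4.2 t (hs ht)⟩

open Classical in
/-- the rank of a coordinate with respect to a list of points -/
noncomputable def rank (a v : ι → ℝ) (α β : ℝ) : List (ι → ℝ) → ι → ℕ
  | [], _ => 0
  | q :: L, k => 2 * rank a v α β L k +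
      (if ∀ t ∈ Ioo α β, (a k + t * v k - q k) * v k < 0 then 1 else 0)

theorem rank_claim {K : Set (ι → ℝ)}
    (hK : ∀ x ∈ K, ∀ y ∈ K, ∀ z ∈ K, (fun k => med (x k) (y k) (z k)) ∈ K)
    {a v : ι → ℝ} {α β : ℝ} (hconst : ∀ t ∈ Ioo α β, a + t • v ∈ K) :
    ∀ L : List (ι → ℝ), (∀ q ∈ L, q ∈ K ∧ ∀ k, Sided a v q α β k) →
    ∀ g : ℕ → ℝ, Monotone g → (∀ x, g x ∈ Ioo α β) →
      (fun k => a k + g (rank a v α β L k) * v k) ∈ K := by
  intro L
  induction L with
  | nil =>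
    intro _ g _ hg
    exact hconst (g 0) (hg 0)
  | cons q L ih =>
    intro hL g hmono hg
    have h0 := ih (fun q hq => hL q (List.mem_cons_of_mem _ hq)) (fun x => g (2 * x))
      (fun x y hxy => hmono (by omega)) (fun x => hg _)
    have h1 := ih (fun q hq => hL q (List.mem_cons_of_mem _ hq)) (fun x => g (2 * x + 1))
      (fun x y hxy => hmono (by omega)) (fun x => hg _)
    obtain ⟨hqK, hq⟩ := hL q List.mem_cons_self
    have h2 := hK _ h0 _ h1 _ hqK
    convert h2 using 1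
    funext k
    have hle : 0 ≤ (a k + g (2 * rank a v α β L k + 1) * v k -
        (a k + g (2 * rank a v α β L k) * v k)) * v k := by
      have h3 : g (2 * rank a v α β L k) ≤ g (2 * rank a v α β L k + 1) := hmono (by omega)
      have h4 : (a k + g (2 * rank a v α β L k + 1) * v k -
        (a k + g (2 * rank a v α β L k) * v k)) * v k =
        (g (2 * rank a v α β L k + 1) - g (2 * rank a v α β L k)) * (v k * v k) := by ring
      rw [h4]
      exact mul_nonneg (sub_nonneg.2 h3) (mul_self_nonneg _)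
    by_cases hD : ∀ t ∈ Ioo α β, (a k + t * v k - q k) * v k < 0
    · simp only [rank, if_pos hD]
      exact (med_right hle (hD _ (hg _)) (hD _ (hg _))).symm
    · have hC : ∀ t ∈ Ioo α β, 0 < (a k + t * v k - q k) * v k := (hq k).resolve_right hD
      simp only [rank, if_neg hD, add_zero]
      exact (med_left hle (hC _ (hg _)) (hC _ (hg _))).symm

theorem rank_inj {a v : ι → ℝ} {α β : ℝ} {i j : ι} : ∀ L : List (ι → ℝ),
    rank a v α β L i = rank a v α β L j → ∀ q ∈ L,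
      ((∀ t ∈ Ioo α β, (a i + t * v i - q i) * v i < 0) ↔
        (∀ t ∈ Ioo α β, (a j + t * v j - q j) * v j < 0)) := by
  intro L
  induction L with
  | nil => intro _ q hq; simp at hq
  | cons p L ih =>
    intro h q hq
    simp only [rank] at h
    have h1 : rank a v α β L i = rank a v α β L j ∧
        ((∀ t ∈ Ioo α β, (a i + t * v i - p i) * v i < 0) ↔
        (∀ t ∈ Ioo α β, (a j + t * v j - p j) * v j < 0)) := by
      by_cases h1 : ∀ t ∈ Ioo α β, (a i + t * v i - p i) * v i < 0 <;>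
      by_cases h2 : ∀ t ∈ Ioo α β, (a j + t * v j - p j) * v j < 0
      · rw [if_pos h1, if_pos h2] at h
        exact ⟨by omega, iff_of_true h1 h2⟩
      · rw [if_pos h1, if_neg h2] at h; omega
      · rw [if_neg h1, if_pos h2] at h; omega
      · rw [if_neg h1, if_neg h2] at h
        exact ⟨by omega, iff_of_false h1 h2⟩
    rcases List.mem_cons.1 hq with rfl | hq
    · exact h1.2
    · exact ih h1.1 q hq

end

theorem med_case (ι : Type) [Fintype ι] (K : Set (ι → ℝ))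
    (hK : ∀ x ∈ K, ∀ y ∈ K, ∀ z ∈ K, (fun k => med (x k) (y k) (z k)) ∈ K)
    (V : Set (ι → ℝ)) (a : (ι → ℝ) → ι → ℝ) (α β : ℝ) (hαβ : α < β) (hV : volume V ≠ 0)
    (hseg : ∀ v ∈ V, ∀ t ∈ Ioo α β, a v + t • v ∈ K) : (interior K).Nonempty := by
  classical
  obtain ⟨V0, hV0, hV0V, hne⟩ : ∃ V0 : Set (ι → ℝ), volume V0 ≠ 0 ∧ V0 ⊆ V ∧
      ∀ v ∈ V0, ∀ k, v k ≠ 0 := by
    refine ⟨V \ ⋃ k, {v : ι → ℝ | v k = 0}, diff_null hV ?_, sdiff_subset, ?_⟩
    · exact measure_iUnion_null fun k => null_coord k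
    · intro v hv k hk
      exact hv.2 (mem_iUnion.2 ⟨k, hk⟩)
  -- a segment all of whose pairs of coordinates are separated by points of `K`
  have hsel : ∀ P : Finset (ι × ι), ∃ V' : Set (ι → ℝ), V' ⊆ V0 ∧ volume V' ≠ 0 ∧
      ∃ α' β' : ℝ, α' < β' ∧ α ≤ α' ∧ β' ≤ β ∧ ∀ v ∈ V', ∀ e ∈ P, e.1 ≠ e.2 →
        Sep K (a v) v e.1 e.2 α' β' := by
    intro P
    induction P using Finset.induction_on with
    | empty => exact ⟨V0, subset_rfl, hV0, α, β, hαβ, le_rfl, le_rfl, by simp⟩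
    | insert e P _ ih =>
      obtain ⟨V', hV'0, hV', α', β', hαβ', hα', hβ', hP⟩ := ih
      by_cases he : e.1 = e.2
      · refine ⟨V', hV'0, hV', α', β', hαβ', hα', hβ', ?_⟩
        intro v hv e' he' hne'
        rcases Finset.mem_insert.1 he' with rfl | he'
        · exact absurd he hne'
        · exact hP v hv e' he' hne'
      obtain ⟨r, hr⟩ := common_value e.1 hV' a (fun v hv => hne v (hV'0 hv) e.1) hαβ'
      obtain ⟨w, hw⟩ := nonempty_of_measure_ne_zero hr
      have hw0 := hne w (hV'0 hw.1)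
      have hV2 := diff_null hr (null_parallel he (hw0 e.2))
      obtain ⟨⟨q1, q2⟩, hdata⟩ := pigeon hV2 (fun d : ℚ × ℚ => {v : ι → ℝ | d.1 < d.2 ∧
          α' ≤ d.1 ∧ (d.2 : ℝ) ≤ β' ∧ Sep K (a v) v e.1 e.2 d.1 d.2}) (by
        rintro v ⟨hv1, hv2⟩
        have hv0 := hne v (hV'0 hv1.1)
        obtain ⟨q1, q2, r1, r2, h1, h2, h3, h4, h5, h6, h7, h8⟩ := split (i := e.1) (j := e.2)
          (a := a v) (b := a w) hv0 v hv0 hv2
          (by
            obtain ⟨t0, ht0, e1⟩ := hv1.2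
            obtain ⟨u0, hu0, e2⟩ := hw.2
            exact ⟨t0, ht0, u0, hu0, by rw [e1, e2]⟩)
        obtain ⟨um, hum⟩ : ∃ um, um ∈ Ioo (r1 : ℝ) r2 := nonempty_Ioo.2 (by exact_mod_cast h2)
        refine mem_iUnion.2 ⟨(q1, q2), h1, h3, h4, a w + um • w, ?_, ?_, ?_⟩
        · apply hseg w (hV0V (hV'0 hw.1))
          exact ⟨(hα'.trans h5).trans_lt hum.1, hum.2.trans_le (h6.trans hβ')⟩
        · intro k
          rcases h7 k with h7 | h7
          · exact Or.inl fun t ht => h7 t ht um hum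
          · exact Or.inr fun t ht => h7 t ht um hum
        · rcases h8 with h8 | h8
          · exact Or.inl ⟨fun t ht => h8.1 t ht um hum, fun t ht => h8.2 t ht um hum⟩
          · exact Or.inr ⟨fun t ht => h8.1 t ht um hum, fun t ht => h8.2 t ht um hum⟩)
      obtain ⟨v00, hv00⟩ := nonempty_of_measure_ne_zero hdata
      obtain ⟨hq12, hq1, hq2, -⟩ := hv00.2
      refine ⟨_, ?_, hdata, q1, q2, by exact_mod_cast hq12, hα'.trans hq1, hq2.trans hβ', ?_⟩
      · rintro v ⟨⟨hv1, -⟩, -⟩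
        exact hV'0 hv1.1
      · rintro v ⟨⟨hv1, -⟩, hv3⟩ e' he' hne'
        rcases Finset.mem_insert.1 he' with rfl | he'
        · exact hv3.2.2.2
        · exact (hP v hv1.1 e' he' hne').mono hq1 hq2
  obtain ⟨V', hV'0, hV', α', β', hαβ', hα', hβ', hP⟩ := hsel Finset.univ
  obtain ⟨v, hv⟩ := nonempty_of_measure_ne_zero hV'
  have hv0 := hne v (hV'0 hv)
  have hsegv : ∀ t ∈ Ioo α' β', a v + t • v ∈ K := fun t ht =>
    hseg v (hV0V (hV'0 hv)) t ⟨hα'.trans_lt ht.1, ht.2.trans_le hβ'⟩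
  have hsep : ∀ e : ι × ι, ∃ q : ι → ℝ, e.1 ≠ e.2 → q ∈ K ∧ (∀ k, Sided (a v) v q α' β' k) ∧
    (((∀ t ∈ Ioo α' β', 0 < (a v e.1 + t * v e.1 - q e.1) * v e.1) ∧
      (∀ t ∈ Ioo α' β', (a v e.2 + t * v e.2 - q e.2) * v e.2 < 0)) ∨
     ((∀ t ∈ Ioo α' β', (a v e.1 + t * v e.1 - q e.1) * v e.1 < 0) ∧
      (∀ t ∈ Ioo α' β', 0 < (a v e.2 + t * v e.2 - q e.2) * v e.2))) := by
    intro e
    by_cases he : e.1 = e.2
    · exact ⟨0, fun h => absurd he h⟩
    · obtain ⟨q, hq⟩ := hP v hv e (Finset.mem_univ _) he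
      exact ⟨q, fun _ => hq⟩
  choose qf hqf using hsep
  obtain ⟨L, hL⟩ : ∃ L : List (ι → ℝ), L = (Finset.univ.filter fun e : ι × ι => e.1 ≠ e.2).toList.map qf :=
    ⟨_, rfl⟩
  have hLmem : ∀ q ∈ L, q ∈ K ∧ ∀ k, Sided (a v) v q α' β' k := by
    intro q hq
    rw [hL, List.mem_map] at hq
    obtain ⟨e, he, rfl⟩ := hq
    have he' : e.1 ≠ e.2 := by simpa using he
    exact ⟨(hqf e he').1, (hqf e he').2.1⟩
  obtain ⟨ρ, hρ⟩ : ∃ ρ : ι → ℕ, ρ = rank (a v) v α' β' L := ⟨_, rfl⟩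
  obtain ⟨tm, htm⟩ : ∃ tm, tm ∈ Ioo α' β' := nonempty_Ioo.2 hαβ'
  have hinj : Function.Injective ρ := by
    intro i j hij
    by_contra hne'
    rw [hρ] at hij
    have hq : qf (i, j) ∈ L := by
      rw [hL, List.mem_map]
      exact ⟨(i, j), by simpa using hne', rfl⟩
    have h1 := rank_inj L hij _ hq
    obtain ⟨-, -, h2⟩ := hqf (i, j) hne'
    rcases h2 with h2 | h2
    · have h3 := h1.2 h2.2 tm htm
      have h4 := h2.1 tm htm
      simp only at h3 h4
      linarith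
    · have h3 := h1.1 h2.1 tm htm
      have h4 := h2.2 tm htm
      simp only at h3 h4
      linarith
  obtain ⟨ε, hε⟩ : ∃ ε : ℕ → ℝ, ε = fun x : ℕ => β' - (β' - α') / ((x : ℝ) + 2) := ⟨_, rfl⟩
  have hεI : ∀ x, ε x ∈ Ioo α' β' := by
    intro x
    rw [hε]
    have h1 : (0 : ℝ) < (x : ℝ) + 2 := by positivity
    have h2 : (0 : ℝ) < β' - α' := by linarith
    have hx : (0 : ℝ) ≤ x := Nat.cast_nonneg x
    constructor
    · show α' < β' - (β' - α') / ((x : ℝ) + 2)
      have : (β' - α') / ((x : ℝ) + 2) < β' - α' := by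
        rw [div_lt_iff₀ h1]; nlinarith
      linarith
    · show β' - (β' - α') / ((x : ℝ) + 2) < β'
      have : 0 < (β' - α') / ((x : ℝ) + 2) := by positivity
      linarith
  have hεlt : ∀ x, ε x < ε (x + 1) := by
    intro x
    rw [hε]
    show β' - (β' - α') / ((x : ℝ) + 2) < β' - (β' - α') / (((x + 1 : ℕ) : ℝ) + 2)
    have h2 : (0 : ℝ) < β' - α' := by linarith
    have h3 : (β' - α') / (((x + 1 : ℕ) : ℝ) + 2) < (β' - α') / ((x : ℝ) + 2) := by
      apply div_lt_div_of_pos_left h2 (by positivity)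
      push_cast; linarith
    linarith
  refine ⟨fun k => a v k + ((ε (ρ k) + ε (ρ k + 1)) / 2) * v k, ?_⟩
  refine interior_maximal (t := ⋂ k, (fun y : ι → ℝ => (y k - a v k) / v k) ⁻¹'
    Ioo (ε (ρ k)) (ε (ρ k + 1))) ?_ ?_ ?_
  · intro y hy
    obtain ⟨τ, hτ⟩ : ∃ τ : ι → ℝ, τ = fun k => (y k - a v k) / v k := ⟨_, rfl⟩
    have hτI : ∀ k, ε (ρ k) < τ k ∧ τ k < ε (ρ k + 1) := by
      intro k
      rw [hτ]
      exact mem_iInter.1 hy k
    obtain ⟨g, hg⟩ : ∃ g : ℕ → ℝ, g = fun x => if h : ∃ k, ρ k = x then τ h.choose else ε x :=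
      ⟨_, rfl⟩
    have hgρ : ∀ k, g (ρ k) = τ k := by
      intro k
      have hex : ∃ k', ρ k' = ρ k := ⟨k, rfl⟩
      rw [hg]
      simp only [dif_pos hex]
      rw [hinj hex.choose_spec]
    have hgI : ∀ x, ε x ≤ g x ∧ g x ≤ ε (x + 1) := by
      intro x
      by_cases h : ∃ k, ρ k = x
      · obtain ⟨k, rfl⟩ := h
        rw [hgρ]
        exact ⟨(hτI k).1.le, (hτI k).2.le⟩
      · rw [hg]
        simp only [dif_neg h]
        exact ⟨le_rfl, (hεlt x).le⟩
    have hmono : Monotone g := monotone_nat_of_le_succ fun x => (hgI x).2.trans (hgI (x + 1)).1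
    have h1 := rank_claim hK hsegv L hLmem g hmono (fun x =>
      ⟨(hεI x).1.trans_le (hgI x).1, (hgI x).2.trans_lt (hεI (x + 1)).2⟩)
    rw [← hρ] at h1
    convert h1 using 1
    funext k
    rw [hgρ, hτ]
    simp only
    rw [div_mul_cancel₀ _ (hv0 k)]
    ring
  · exact isOpen_iInter_of_finite fun k => isOpen_Ioo.preimage (by fun_prop)
  · refine mem_iInter.2 fun k => ?_
    show (a v k + ((ε (ρ k) + ε (ρ k + 1)) / 2) * v k - a v k) / v k ∈ Ioo (ε (ρ k)) (ε (ρ k + 1))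
    rw [add_sub_cancel_left, mul_div_assoc, div_self (hv0 k), mul_one]
    have := hεlt (ρ k)
    constructor <;> linarith

end Pool.Agent.V11222.KO
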