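import Pool.Agent.V11222.KO.MaxCase
import Pool.Agent.V11222.KO.MedCase

/-!
Sets that are locally closed under an order operation and contain segments in many directions.
-/

set_option autoImplicit false

namespace Pool.Agent.V11222.KO

open Set MeasureTheory Pool.Agent.V11160.OP Filter
open scoped Topology

theorem min_case (ι : Type) [Fintype ι] [DecidableEq ι] [Nonempty ι] (K : Set (ι → ℝ))
    (hK : ∀ x ∈ K, ∀ y ∈ K, x ⊓ y ∈ K)
    (V : Set (ι → ℝ)) (a : (ι → ℝ) → ι → ℝ) (α β : ℝ) (hαβ : α < β) (hV : volume V ≠ 0)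
    (hseg : ∀ v ∈ V, ∀ t ∈ Ioo α β, a v + t • v ∈ K) : (interior K).Nonempty := by
  have h1 : (interior (-K)).Nonempty := by
    refine max_case _ ι rfl (-K) ?_ (-V) (fun v => - a (-v)) α β hαβ ?_ ?_
    · intro x hx y hy
      have h2 := hK _ hx _ hy
      rw [Set.mem_neg]
      rwa [neg_sup]
    · rwa [Measure.measure_neg]
    · intro v hv t ht
      have h2 := hseg _ hv t ht
      rw [Set.mem_neg]
      convert h2 using 1
      simp only [neg_add, neg_neg, smul_neg]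
  obtain ⟨x, hx⟩ := h1
  refine ⟨-x, ?_⟩
  have h2 : -x ∈ -(interior (-K)) := by simpa using hx
  refine interior_maximal ?_ (isOpen_interior.neg) h2
  intro y hy
  have h3 : -y ∈ -K := interior_subset hy
  simpa using h3

/-- closure under the minimum, the maximum or the median -/
def Cl {ι : Type} (ty : Fin 3) (S : Set (ι → ℝ)) : Prop :=
  (ty = 0 → ∀ x ∈ S, ∀ y ∈ S, x ⊓ y ∈ S) ∧ (ty = 1 → ∀ x ∈ S, ∀ y ∈ S, x ⊔ y ∈ S) ∧
  (ty = 2 → ∀ x ∈ S, ∀ y ∈ S, ∀ z ∈ S, (fun k => med (x k) (y k) (z k)) ∈ S)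

theorem cl_case (ι : Type) [Fintype ι] [DecidableEq ι] [Nonempty ι] (ty : Fin 3) (K : Set (ι → ℝ))
    (hK : Cl ty K) (V : Set (ι → ℝ)) (a : (ι → ℝ) → ι → ℝ) (α β : ℝ) (hαβ : α < β)
    (hV : volume V ≠ 0) (hseg : ∀ v ∈ V, ∀ t ∈ Ioo α β, a v + t • v ∈ K) :
    (interior K).Nonempty := by
  obtain ⟨h0, h1, h2⟩ := hK
  match ty with
  | 0 => exact min_case ι K (h0 rfl) V a α β hαβ hV hseg
  | 1 => exact max_case _ ι rfl K (h1 rfl) V a α β hαβ hV hseg
  | 2 => exact med_case ι K (h2 rfl) V a α β hαβ hV hseg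

/-- the box with the corners `q` and `r` -/
def box {ι : Type} (q r : ι → ℚ) : Set (ι → ℝ) := {y | ∀ k, (q k : ℝ) < y k ∧ y k < r k}

theorem exists_box {ι : Type} [Fintype ι] {p : ι → ℝ} {U : Set (ι → ℝ)} (hU : U ∈ 𝓝 p) :
    ∃ q r : ι → ℚ, p ∈ box q r ∧ box q r ⊆ U := by
  obtain ⟨ε, hε, hball⟩ := Metric.mem_nhds_iff.1 hU
  have h1 : ∀ k, ∃ q : ℚ, p k - ε / 2 < q ∧ (q : ℝ) < p k := fun k =>
    exists_rat_btwn (by linarith)
  have h2 : ∀ k, ∃ r : ℚ, p k < r ∧ (r : ℝ) < p k + ε / 2 := fun k =>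
    exists_rat_btwn (by linarith)
  choose q hq1 hq2 using h1
  choose r hr1 hr2 using h2
  refine ⟨q, r, fun k => ⟨hq2 k, hr1 k⟩, fun y hy => hball ?_⟩
  rw [Metric.mem_ball]
  refine lt_of_le_of_lt ((dist_pi_le_iff (by positivity : (0 : ℝ) ≤ ε / 2)).2 fun k => ?_)
    (by linarith : ε / 2 < ε)
  rw [Real.dist_eq, abs_le]
  constructor
  · linarith [(hy k).1, hq1 k]
  · linarith [(hy k).2, hr2 k]

theorem box_isOpen {ι : Type} [Fintype ι] (q r : ι → ℚ) : IsOpen (box q r) := by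
  have : box q r = ⋂ k, {y : ι → ℝ | (q k : ℝ) < y k} ∩ {y : ι → ℝ | y k < r k} := by
    ext y; simp [box]
  rw [this]
  exact isOpen_iInter_of_finite fun k =>
    (isOpen_lt continuous_const (continuous_apply k)).inter
      (isOpen_lt (continuous_apply k) continuous_const)

theorem box_cl {ι : Type} (q r : ι → ℚ) : (∀ x ∈ box q r, ∀ y ∈ box q r, x ⊓ y ∈ box q r) ∧
    (∀ x ∈ box q r, ∀ y ∈ box q r, x ⊔ y ∈ box q r) ∧
    (∀ x ∈ box q r, ∀ y ∈ box q r, ∀ z ∈ box q r, (fun k => med (x k) (y k) (z k)) ∈ box q r) := by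
  refine ⟨fun x hx y hy k => ?_, fun x hx y hy k => ?_, fun x hx y hy z hz k => ?_⟩
  · exact ⟨lt_min (hx k).1 (hy k).1, (min_le_left _ _).trans_lt (hx k).2⟩
  · exact ⟨(hx k).1.trans_le (le_max_left _ _), max_lt (hx k).2 (hy k).2⟩
  · have h1 : med (x k) (y k) (z k) = x k ∨ med (x k) (y k) (z k) = y k ∨
        med (x k) (y k) (z k) = z k := by
      unfold med
      rcases le_total (x k) (y k) with h | h <;> rcases le_total (x k) (z k) with h' | h' <;>
        rcases le_total (y k) (z k) with h'' | h'' <;> simp [h, h', h'']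
    show (q k : ℝ) < med (x k) (y k) (z k) ∧ med (x k) (y k) (z k) < r k
    rcases h1 with h1 | h1 | h1 <;> rw [h1]
    · exact hx k
    · exact hy k
    · exact hz k

/-- the main theorem in coordinates -/
theorem coords (ι : Type) [Fintype ι] [DecidableEq ι] [Nonempty ι] (K : Set (ι → ℝ))
    (hK : ∀ p ∈ K, ∃ U ∈ 𝓝 p, ∃ (m : ℕ) (f : (Fin m → ℝ) → ℝ), OrderOp f ∧
      (¬ ∃ j, ∀ x, f x = x j) ∧ ∀ x : Fin m → ι → ℝ, (∀ l, x l ∈ K ∩ U) →
        (fun i => f (fun l => x l i)) ∈ K)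
    (V : Set (ι → ℝ)) (hV : volume V ≠ 0)
    (hseg : ∀ v ∈ V, ∃ a : ι → ℝ, ∃ δ > (0 : ℝ), ∀ t ∈ Icc (0 : ℝ) δ, a + t • v ∈ K) :
    (interior K).Nonempty := by
  obtain ⟨⟨q, r, ty, d⟩, hdata⟩ := pigeon hV
    (fun e : (ι → ℚ) × (ι → ℚ) × Fin 3 × ℚ => {v : ι → ℝ | Cl e.2.2.1 (K ∩ box e.1 e.2.1) ∧
      0 < e.2.2.2 ∧ ∃ a : ι → ℝ, ∀ t ∈ Ioo (0 : ℝ) e.2.2.2, a + t • v ∈ K ∩ box e.1 e.2.1}) (by
    intro v hv
    obtain ⟨a, δ, hδ, hs⟩ := hseg v hv
    have ha : a ∈ K := by simpa using hs 0 ⟨le_rfl, hδ.le⟩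
    obtain ⟨U, hU, m, f, hf, hnt, hcl⟩ := hK a ha
    obtain ⟨q, r, hqr, hqrU⟩ := exists_box hU
    obtain ⟨B1, B2, B3⟩ := box_cl q r
    have hty : ∃ ty : Fin 3, Cl ty (K ∩ box q r) := by
      rcases minors hf hnt with ⟨S, hS⟩ | ⟨S, hS⟩ | ⟨j, S, hS⟩
      · refine ⟨0, fun _ x hx y hy => ⟨?_, B1 x hx.2 y hy.2⟩, fun h => absurd h (by decide),
          fun h => absurd h (by decide)⟩
        have h1 := hcl (fun l => if l ∈ S then x else y) (by
          intro l
          split_ifs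
          · exact ⟨hx.1, hqrU hx.2⟩
          · exact ⟨hy.1, hqrU hy.2⟩)
        convert h1 using 1
        funext i
        rw [Pi.inf_apply, ← hS]
        congr 1
        funext l
        split_ifs <;> rfl
      · refine ⟨1, fun h => absurd h (by decide), fun _ x hx y hy => ⟨?_, B2 x hx.2 y hy.2⟩,
          fun h => absurd h (by decide)⟩
        have h1 := hcl (fun l => if l ∈ S then x else y) (by
          intro l
          split_ifs
          · exact ⟨hx.1, hqrU hx.2⟩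
          · exact ⟨hy.1, hqrU hy.2⟩)
        convert h1 using 1
        funext i
        rw [Pi.sup_apply, ← hS]
        congr 1
        funext l
        split_ifs <;> rfl
      · refine ⟨2, fun h => absurd h (by decide), fun h => absurd h (by decide),
          fun _ x hx y hy z hz => ⟨?_, B3 x hx.2 y hy.2 z hz.2⟩⟩
        have h1 := hcl (fun l => if l = j then x else if l ∈ S then y else z) (by
          intro l
          split_ifs
          · exact ⟨hx.1, hqrU hx.2⟩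
          · exact ⟨hy.1, hqrU hy.2⟩
          · exact ⟨hz.1, hqrU hz.2⟩)
        convert h1 using 1
        funext i
        rw [← hS]
        congr 1
        funext l
        split_ifs <;> rfl
    obtain ⟨ty, hty⟩ := hty
    have hev : ∀ᶠ t in 𝓝 (0 : ℝ), a + t • v ∈ box q r := by
      have hc : Continuous fun t : ℝ => a + t • v := by fun_prop
      have h0 : a + (0 : ℝ) • v ∈ box q r := by simpa using hqr
      exact hc.continuousAt.eventually ((box_isOpen q r).mem_nhds h0)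
    obtain ⟨ε, hε, hball⟩ := Metric.eventually_nhds_iff.1 hev
    obtain ⟨d, hd1, hd2⟩ := exists_rat_btwn (lt_min hδ hε)
    refine mem_iUnion.2 ⟨(q, r, ty, d), hty, by exact_mod_cast hd1, a, fun t ht => ⟨?_, ?_⟩⟩
    · exact hs t ⟨ht.1.le, (ht.2.trans (hd2.trans_le (min_le_left _ _))).le⟩
    · apply hball
      rw [Real.dist_eq, sub_zero, abs_of_pos ht.1]
      exact ht.2.trans (hd2.trans_le (min_le_right _ _)))
  obtain ⟨v0, hv0⟩ := nonempty_of_measure_ne_zero hdata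
  obtain ⟨hcl, hd, -⟩ := hv0.2
  simp only at hcl hd
  classical
  obtain ⟨x, hx⟩ := cl_case ι ty (K ∩ box q r) hcl _
    (fun v => if h : ∃ a : ι → ℝ, ∀ t ∈ Ioo (0 : ℝ) d, a + t • v ∈ K ∩ box q r then h.choose else 0)
    0 d (by exact_mod_cast hd) hdata (by
      rintro v ⟨-, hv⟩ t ht
      have hex : ∃ a : ι → ℝ, ∀ t ∈ Ioo (0 : ℝ) d, a + t • v ∈ K ∩ box q r := hv.2.2
      simp only [dif_pos hex]
      exact hex.choose_spec t ht)
  exact ⟨x, interior_mono inter_subset_left hx⟩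

/-- transfer of null sets to coordinates -/
theorem image_ne_zero {n : ℕ} {E : Type*} [NormedAddCommGroup E] [NormedSpace ℝ E]
    [FiniteDimensional ℝ E] [MeasurableSpace E] [BorelSpace E] (μ : Measure E) [μ.IsAddHaarMeasure]
    (L : E ≃L[ℝ] (Fin n → ℝ)) {S : Set E} (hS : μ S ≠ 0) : volume (L '' S) ≠ 0 := by
  intro h
  apply hS
  have : (Measure.map L.symm (volume : Measure (Fin n → ℝ))).IsAddHaarMeasure :=
    L.symm.isAddHaarMeasure_map volume
  have h1 : Measure.map L.symm (volume : Measure (Fin n → ℝ)) S = 0 := by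
    have hemb : MeasurableEmbedding (L.symm : (Fin n → ℝ) → E) :=
      L.symm.toHomeomorph.measurableEmbedding
    rw [hemb.map_apply, ← h]
    congr 1
    ext y
    simp only [mem_preimage, mem_image]
    constructor
    · intro hy; exact ⟨_, hy, L.apply_symm_apply y⟩
    · rintro ⟨x, hx, rfl⟩
      rw [L.symm_apply_apply]; exact hx
  exact (Measure.absolutelyContinuous_isAddHaarMeasure μ
    (Measure.map L.symm (volume : Measure (Fin n → ℝ)))) h1

end Pool.Agent.V11222.KO
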