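import Pool.Agent.V11222.KO.Planar
import Pool.Agent.V11222.KO.Rich

/-!
Sets closed under the coordinatewise maximum which contain segments in many directions.
-/

set_option autoImplicit false

namespace Pool.Agent.V11222.KO

open Set MeasureTheory TopologicalSpace

section merge

variable {ι : Type} [DecidableEq ι]

/-- merging functions on `A` and on the complement of `A` -/
def mg (A : Finset ι) (x : {k // k ∈ A} → ℝ) (y : {k // k ∉ A} → ℝ) : ι → ℝ :=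
  fun k => if h : k ∈ A then x ⟨k, h⟩ else y ⟨k, h⟩

theorem mg_sup (A : Finset ι) (x x' : {k // k ∈ A} → ℝ) (y y' : {k // k ∉ A} → ℝ) :
    mg A (x ⊔ x') (y ⊔ y') = mg A x y ⊔ mg A x' y' := by
  funext k
  simp only [mg, Pi.sup_apply]
  split_ifs <;> rfl

theorem mg_rst (A : Finset ι) (z : ι → ℝ) :
    mg A (rst (fun k => k ∈ A) z) (rst (fun k => k ∉ A) z) = z := by
  funext k
  simp only [mg, rst]
  split_ifs <;> rfl

theorem rst_mg_left (A : Finset ι) (x : {k // k ∈ A} → ℝ) (y : {k // k ∉ A} → ℝ) :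
    rst (fun k => k ∈ A) (mg A x y) = x := by
  funext k
  simp only [mg, rst, k.2, dif_pos]

theorem rst_mg_right (A : Finset ι) (x : {k // k ∈ A} → ℝ) (y : {k // k ∉ A} → ℝ) :
    rst (fun k => k ∉ A) (mg A x y) = y := by
  funext k
  simp only [mg, rst]
  rw [dif_neg k.2]

omit [DecidableEq ι] in
theorem continuous_rst (p : ι → Prop) : Continuous (rst p : (ι → ℝ) → ({k // p k} → ℝ)) :=
  continuous_pi fun _ => continuous_apply _

/-- the maximum of points that are ordered differently on `A` and off `A` -/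
theorem sup_eq_mg (A : Finset ι) {x y : ι → ℝ} (h1 : ∀ k ∈ A, y k < x k)
    (h2 : ∀ k, k ∉ A → x k < y k) :
    x ⊔ y = mg A (rst (fun k => k ∈ A) x) (rst (fun k => k ∉ A) y) := by
  funext k
  simp only [mg, rst, Pi.sup_apply]
  split_ifs with h
  · exact sup_eq_left.2 (h1 k h).le
  · exact sup_eq_right.2 (h2 k h).le

end merge

/-- base points for the image of a family of segments under a restriction -/
theorem transport {ι : Type} [Fintype ι] (p : ι → Prop) [DecidablePred p]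
    [Fintype {k // p k}] {V : Set (ι → ℝ)}
    (hV : volume V ≠ 0) (a : (ι → ℝ) → ι → ℝ) {q1 q2 : ℝ} {L : Set ({k // p k} → ℝ)}
    (h : ∀ v ∈ V, ∀ t ∈ Ioo q1 q2, rst p (a v + t • v) ∈ L) :
    ∃ (V' : Set ({k // p k} → ℝ)) (a' : ({k // p k} → ℝ) → {k // p k} → ℝ), volume V' ≠ 0 ∧
      ∀ v ∈ V', ∀ t ∈ Ioo q1 q2, a' v + t • v ∈ L := by
  classical
  refine ⟨rst p '' V, fun v' => if h : ∃ v ∈ V, rst p v = v' then rst p (a h.choose) else 0,
    rst_image p hV, ?_⟩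
  rintro v' hv' t ht
  have hex : ∃ v ∈ V, rst p v = v' := hv'
  simp only [dif_pos hex]
  have h1 := h hex.choose hex.choose_spec.1 t ht
  have h2 : rst p (a hex.choose + t • hex.choose) =
      rst p (a hex.choose) + t • rst p hex.choose := rfl
  rw [h2, hex.choose_spec.2] at h1
  exact h1

theorem max_case : ∀ (n : ℕ) (ι : Type) [Fintype ι] [DecidableEq ι] [Nonempty ι],
    Fintype.card ι = n → ∀ K : Set (ι → ℝ), (∀ x ∈ K, ∀ y ∈ K, x ⊔ y ∈ K) →
    ∀ (V : Set (ι → ℝ)) (a : (ι → ℝ) → ι → ℝ) (α β : ℝ), α < β → volume V ≠ 0 →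
    (∀ v ∈ V, ∀ t ∈ Ioo α β, a v + t • v ∈ K) → (interior K).Nonempty := by
  intro n
  induction n using Nat.strong_induction_on with
  | _ n ih =>
  intro ι _ _ _ hcard K hK V a α β hαβ hV hseg
  -- directions with nonzero coordinates
  obtain ⟨V0, hV0, hV0V, hne⟩ : ∃ V0 : Set (ι → ℝ), volume V0 ≠ 0 ∧ V0 ⊆ V ∧
      ∀ v ∈ V0, ∀ k, v k ≠ 0 := by
    refine ⟨V \ ⋃ k, {v : ι → ℝ | v k = 0}, diff_null hV ?_, sdiff_subset, ?_⟩
    · exact measure_iUnion_null fun k => null_coord k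
    · intro v hv k hk
      exact hv.2 (mem_iUnion.2 ⟨k, hk⟩)
  obtain ⟨i0⟩ := ‹Nonempty ι›
  by_cases hsub : ∀ j, j = i0
  · -- one coordinate
    obtain ⟨v, hv⟩ := nonempty_of_measure_ne_zero hV0
    have hv0 := hne v hv i0
    have hopen : IsOpen ((fun x : ι → ℝ => (x i0 - a v i0) / v i0) ⁻¹' Ioo α β) :=
      isOpen_Ioo.preimage (by fun_prop)
    refine ⟨a v + ((α + β) / 2) • v, ?_⟩
    refine interior_maximal (t := (fun x : ι → ℝ => (x i0 - a v i0) / v i0) ⁻¹' Ioo α β) ?_ hopen ?_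
    · intro x hx
      have h1 := hseg v (hV0V hv) _ hx
      convert h1 using 1
      funext k
      rw [hsub k]
      simp only [Pi.add_apply, Pi.smul_apply, smul_eq_mul]
      rw [div_mul_cancel₀ _ hv0]; ring
    · show ((a v + ((α + β) / 2) • v) i0 - a v i0) / v i0 ∈ Ioo α β
      simp only [Pi.add_apply, Pi.smul_apply, smul_eq_mul, add_sub_cancel_left]
      rw [mul_div_assoc, div_self hv0, mul_one]
      constructor <;> linarith
  push Not at hsub
  obtain ⟨j0, hj0⟩ := hsub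
  obtain ⟨r, hr⟩ := common_value i0 hV0 a (fun v hv => hne v hv i0) hαβ
  obtain ⟨V1, hV1⟩ : ∃ V1 : Set (ι → ℝ), V1 = {v ∈ V0 | ∃ t ∈ Ioo α β, a v i0 + t * v i0 = r} :=
    ⟨_, rfl⟩
  rw [← hV1] at hr
  have hV1V : V1 ⊆ V0 := by rw [hV1]; exact fun v hv => hv.1
  -- for each `w` a box times a piece of the segment number `w`
  have hfirst : ∀ w ∈ V1, ∃ (A : Finset ι) (r1 r2 : ℚ) (B : countableBasis ({k // k ∈ A} → ℝ)),
      A.Nonempty ∧ (∃ k, k ∉ A) ∧ r1 < r2 ∧ (B : Set ({k // k ∈ A} → ℝ)).Nonempty ∧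
      ∀ x ∈ (B : Set ({k // k ∈ A} → ℝ)), ∀ u ∈ Ioo (r1 : ℝ) r2,
        mg A x (rst (fun k => k ∉ A) (a w + u • w)) ∈ K := by
    intro w hw
    have hw0 := hne w (hV1V hw)
    have hV2 : volume (V1 \ {v : ι → ℝ | v i0 * w j0 = v j0 * w i0}) ≠ 0 :=
      diff_null hr (null_parallel (Ne.symm hj0) (hw0 j0))
    obtain ⟨⟨A, q1, q2, r1, r2⟩, hdata⟩ := pigeon hV2
      (fun d : Finset ι × ℚ × ℚ × ℚ × ℚ => {v : ι → ℝ | d.1.Nonempty ∧ (∃ k, k ∉ d.1) ∧
        d.2.1 < d.2.2.1 ∧ d.2.2.2.1 < d.2.2.2.2 ∧ α ≤ d.2.1 ∧ (d.2.2.1 : ℝ) ≤ β ∧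
        α ≤ d.2.2.2.1 ∧ (d.2.2.2.2 : ℝ) ≤ β ∧
        ∀ t ∈ Ioo (d.2.1 : ℝ) d.2.2.1, ∀ u ∈ Ioo (d.2.2.2.1 : ℝ) d.2.2.2.2,
          (∀ k ∈ d.1, a w k + u * w k < a v k + t * v k) ∧
          (∀ k, k ∉ d.1 → a v k + t * v k < a w k + u * w k)}) (by
      rintro v ⟨hv1, hv2⟩
      have hv0 := hne v (hV1V hv1)
      have hv1' := hv1
      have hw1' := hw
      rw [hV1] at hv1' hw1'
      obtain ⟨q1, q2, r1, r2, h1, h2, h3, h4, h5, h6, h7, h8⟩ := split (i := i0) (j := j0)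
        (a := a v) (b := a w) hv0 (fun _ => 1) (fun _ => one_ne_zero) hv2
        (by
          obtain ⟨t0, ht0, e1⟩ := hv1'.2
          obtain ⟨u0, hu0, e2⟩ := hw1'.2
          exact ⟨t0, ht0, u0, hu0, by rw [e1, e2]⟩)
      simp only [mul_one] at h7 h8
      obtain ⟨tm, htm⟩ : ∃ tm, tm ∈ Ioo (q1 : ℝ) q2 := nonempty_Ioo.2 (by exact_mod_cast h1)
      obtain ⟨um, hum⟩ : ∃ um, um ∈ Ioo (r1 : ℝ) r2 := nonempty_Ioo.2 (by exact_mod_cast h2)
      obtain ⟨A, hA⟩ : ∃ A : Finset ι, A = Finset.univ.filter fun k =>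
          a w k + um * w k < a v k + tm * v k := ⟨_, rfl⟩
      have hmem : ∀ k, k ∈ A ↔ a w k + um * w k < a v k + tm * v k := by
        intro k; rw [hA]; simp
      refine mem_iUnion.2 ⟨(A, q1, q2, r1, r2), ?_, ?_, h1, h2, h3, h4, h5, h6, ?_⟩
      · rcases h8 with h8 | h8
        · exact ⟨i0, (hmem i0).2 (by linarith [h8.1 tm htm um hum])⟩
        · exact ⟨j0, (hmem j0).2 (by linarith [h8.2 tm htm um hum])⟩
      · rcases h8 with h8 | h8
        · exact ⟨j0, fun h => by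
            have := (hmem j0).1 h
            linarith [h8.2 tm htm um hum]⟩
        · exact ⟨i0, fun h => by
            have := (hmem i0).1 h
            linarith [h8.1 tm htm um hum]⟩
      · intro t ht u hu
        constructor
        · intro k hk
          have hk' := (hmem k).1 hk
          rcases h7 k with h7 | h7
          · linarith [h7 t ht u hu]
          · linarith [h7 tm htm um hum]
        · intro k hk
          have hk' := not_lt.1 (fun h => hk ((hmem k).2 h))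
          rcases h7 k with h7 | h7
          · linarith [h7 tm htm um hum]
          · linarith [h7 t ht u hu])
    obtain ⟨v00, hv00⟩ := nonempty_of_measure_ne_zero hdata
    obtain ⟨hAne, ⟨k1, hk1⟩, hq, hr12, hq1, hq2, hr1, hr2, -⟩ := hv00.2
    -- induction on `A`
    obtain ⟨L, hL⟩ : ∃ L : Set ({k // k ∈ A} → ℝ), L = {x | ∀ u ∈ Ioo (r1 : ℝ) r2,
        mg A x (rst (fun k => k ∉ A) (a w + u • w)) ∈ K} := ⟨_, rfl⟩
    have hLcl : ∀ x ∈ L, ∀ y ∈ L, x ⊔ y ∈ L := by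
      intro x hx y hy
      rw [hL] at hx hy ⊢
      intro u hu
      have h1 := hK _ (hx u hu) _ (hy u hu)
      rwa [← mg_sup, sup_idem] at h1
    obtain ⟨V', a', hV', hseg'⟩ := transport (fun k => k ∈ A) hdata a (q1 := q1) (q2 := q2)
      (L := L) (by
        rintro v ⟨hv1, hv2⟩ t ht
        rw [hL]
        intro u hu
        have h9 := hv2.2.2.2.2.2.2.2.2 t ht u hu
        have hv3 : v ∈ V1 := hv1.1
        have htα : t ∈ Ioo α β := ⟨hq1.trans_lt ht.1, ht.2.trans_le hq2⟩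
        have huα : u ∈ Ioo α β := ⟨hr1.trans_lt hu.1, hu.2.trans_le hr2⟩
        have h10 := hK _ (hseg v (hV0V (hV1V hv3)) t htα) _ (hseg w (hV0V (hV1V hw)) u huα)
        rwa [sup_eq_mg A (x := a v + t • v) (y := a w + u • w) (fun k hk => h9.1 k hk)
          (fun k hk => h9.2 k hk)] at h10)
    have hcA : Fintype.card {k // k ∈ A} < n := by
      rw [← hcard]
      exact Fintype.card_subtype_lt hk1
    have : Nonempty {k // k ∈ A} := ⟨⟨hAne.choose, hAne.choose_spec⟩⟩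
    obtain ⟨x0, hx0⟩ := ih _ hcA {k // k ∈ A} rfl L hLcl V' a' q1 q2 (by exact_mod_cast hq) hV' hseg'
    obtain ⟨B, hB, hx0B, hBL⟩ := (isBasis_countableBasis ({k // k ∈ A} → ℝ)).exists_subset_of_mem_open
      hx0 isOpen_interior
    refine ⟨A, r1, r2, ⟨B, hB⟩, hAne, ⟨k1, hk1⟩, hr12, ⟨x0, hx0B⟩, ?_⟩
    intro x hx u hu
    have hxL : x ∈ L := interior_subset (hBL hx)
    rw [hL] at hxL
    exact hxL u hu
  -- a common box
  have hcount : ∀ A : Finset ι, Countable (countableBasis ({k // k ∈ A} → ℝ)) := fun A =>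
    (countable_countableBasis _).to_subtype
  obtain ⟨⟨A, r1, r2, B⟩, hW⟩ := pigeon hr
    (fun d : (A : Finset ι) × ℚ × ℚ × (countableBasis ({k // k ∈ A} → ℝ)) =>
      {w : ι → ℝ | d.1.Nonempty ∧ (∃ k, k ∉ d.1) ∧ d.2.1 < d.2.2.1 ∧
        (d.2.2.2 : Set ({k // k ∈ d.1} → ℝ)).Nonempty ∧
        ∀ x ∈ (d.2.2.2 : Set ({k // k ∈ d.1} → ℝ)), ∀ u ∈ Ioo (d.2.1 : ℝ) d.2.2.1,
        mg d.1 x (rst (fun k => k ∉ d.1) (a w + u • w)) ∈ K}) (by
    intro w hw
    obtain ⟨A, r1, r2, B, h⟩ := hfirst w hw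
    exact mem_iUnion.2 ⟨⟨A, r1, r2, B⟩, h⟩)
  obtain ⟨w00, hw00⟩ := nonempty_of_measure_ne_zero hW
  obtain ⟨⟨kA, hkA⟩, ⟨k1, hk1⟩, hr12, ⟨xB, hxB⟩, -⟩ := hw00.2
  simp only at kA hkA k1 hk1 hr12 xB hxB
  obtain ⟨M, hM⟩ : ∃ M : Set ({k // k ∉ A} → ℝ), M = {y | ∀ x ∈ (B : Set ({k // k ∈ A} → ℝ)),
      mg A x y ∈ K} := ⟨_, rfl⟩
  have hMcl : ∀ x ∈ M, ∀ y ∈ M, x ⊔ y ∈ M := by
    intro y hy y' hy'
    rw [hM] at hy hy' ⊢
    intro x hx
    have h1 := hK _ (hy x hx) _ (hy' x hx)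
    rwa [← mg_sup, sup_idem] at h1
  obtain ⟨V', a', hV', hseg'⟩ := transport (fun k => k ∉ A) hW a (q1 := r1) (q2 := r2)
    (L := M) (by
      rintro w ⟨hw1, hw2⟩ u hu
      rw [hM]
      intro x hx
      exact hw2.2.2.2.2 x hx u hu)
  have hcA : Fintype.card {k // k ∉ A} < n := by
    rw [← hcard]
    exact Fintype.card_subtype_lt (x := kA) (not_not.2 hkA)
  have : Nonempty {k // k ∉ A} := ⟨⟨k1, hk1⟩⟩
  obtain ⟨y0, hy0⟩ := ih _ hcA {k // k ∉ A} rfl M hMcl V' a' r1 r2 (by exact_mod_cast hr12) hV' hseg'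
  have hBo : IsOpen (B : Set ({k // k ∈ A} → ℝ)) := isOpen_of_mem_countableBasis B.2
  refine ⟨mg A xB y0, ?_⟩
  refine interior_maximal (t := (rst (fun k => k ∈ A)) ⁻¹' (B : Set ({k // k ∈ A} → ℝ)) ∩
    (rst (fun k => k ∉ A)) ⁻¹' interior M) ?_
    ((hBo.preimage (continuous_rst _)).inter (isOpen_interior.preimage (continuous_rst _))) ?_
  · rintro z ⟨hz1, hz2⟩
    have h1 : rst (fun k => k ∉ A) z ∈ M := interior_subset hz2
    rw [hM] at h1
    have h2 := h1 _ hz1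
    rwa [mg_rst] at h2
  · refine ⟨?_, ?_⟩
    · rw [mem_preimage, rst_mg_left]; exact hxB
    · rw [mem_preimage, rst_mg_right]; exact hy0

end Pool.Agent.V11222.KO
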