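import Mathlib

/-!
Two nonparallel segments whose projections to one coordinate overlap are not ordered
coordinatewise: points of the two segments are strictly incomparable, robustly.
-/

set_option autoImplicit false

namespace Pool.Agent.V11222.KO

open Set Filter
open scoped Topology

theorem planar {α β vi vj wi wj ai aj bi bj t0 u0 ci cj : ℝ}
    (hind : vi * wj ≠ vj * wi) (ht0 : t0 ∈ Ioo α β) (hu0 : u0 ∈ Ioo α β)
    (h0 : ai + t0 * vi = bi + u0 * wi) (hci : ci ≠ 0) (hcj : cj ≠ 0) :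
    ∃ t ∈ Ioo α β, ∃ u ∈ Ioo α β,
      (0 < (ai + t * vi - (bi + u * wi)) * ci ∧ (aj + t * vj - (bj + u * wj)) * cj < 0) ∨
      ((ai + t * vi - (bi + u * wi)) * ci < 0 ∧ 0 < (aj + t * vj - (bj + u * wj)) * cj) := by
  have hD : vj * wi - vi * wj ≠ 0 := fun h => hind (by linarith)
  obtain ⟨x, hx⟩ : ∃ x, x = (-ci * wj - wi * cj) / (vj * wi - vi * wj) := ⟨_, rfl⟩
  obtain ⟨y, hy⟩ : ∃ y, y = (-vi * cj - vj * ci) / (vj * wi - vi * wj) := ⟨_, rfl⟩
  have e1 : vi * x - wi * y = ci := by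
    rw [hx, hy, ← mul_div_assoc, ← mul_div_assoc, ← sub_div, div_eq_iff hD]; ring
  have e2 : vj * x - wj * y = -cj := by
    rw [hx, hy, ← mul_div_assoc, ← mul_div_assoc, ← sub_div, div_eq_iff hD]; ring
  have hci2 : 0 < ci * ci := mul_self_pos.2 hci
  have hcj2 : 0 < cj * cj := mul_self_pos.2 hcj
  obtain ⟨η, hη, h1, h2, h3, h4⟩ : ∃ η : ℝ, 0 < η ∧ t0 + η * x ∈ Ioo α β ∧ t0 - η * x ∈ Ioo α β ∧
      u0 + η * y ∈ Ioo α β ∧ u0 - η * y ∈ Ioo α β := by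
    have c1 : ∀ (s z : ℝ), s ∈ Ioo α β → ∀ᶠ η in 𝓝 (0 : ℝ), s + η * z ∈ Ioo α β := by
      intro s z hs
      have hc : ContinuousAt (fun η : ℝ => s + η * z) 0 := by fun_prop
      have h1 : Ioo α β ∈ 𝓝 (s + 0 * z) := by
        rw [zero_mul, add_zero]; exact isOpen_Ioo.mem_nhds hs
      exact hc.eventually h1
    have hall : ∀ᶠ η in 𝓝[>] (0 : ℝ), 0 < η ∧ t0 + η * x ∈ Ioo α β ∧ t0 + η * (-x) ∈ Ioo α β ∧
      u0 + η * y ∈ Ioo α β ∧ u0 + η * (-y) ∈ Ioo α β := by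
      filter_upwards [self_mem_nhdsWithin, nhdsWithin_le_nhds (c1 t0 x ht0),
        nhdsWithin_le_nhds (c1 t0 (-x) ht0), nhdsWithin_le_nhds (c1 u0 y hu0),
        nhdsWithin_le_nhds (c1 u0 (-y) hu0)] with η a1 a2 a3 a4 a5
      exact ⟨a1, a2, a3, a4, a5⟩
    obtain ⟨η, a1, a2, a3, a4, a5⟩ := hall.exists
    exact ⟨η, a1, a2, by convert a3 using 1; ring, a4, by convert a5 using 1; ring⟩
  rcases le_total ((aj + t0 * vj - (bj + u0 * wj)) * cj) 0 with hG | hG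
  · refine ⟨t0 + η * x, h1, u0 + η * y, h3, Or.inl ⟨?_, ?_⟩⟩
    · have : (ai + (t0 + η * x) * vi - (bi + (u0 + η * y) * wi)) * ci = η * (ci * ci) := by
        have : ai + (t0 + η * x) * vi - (bi + (u0 + η * y) * wi) = η * ci := by
          rw [← e1]; linear_combination h0
        rw [this]; ring
      rw [this]; positivity
    · have : (aj + (t0 + η * x) * vj - (bj + (u0 + η * y) * wj)) * cj =
          (aj + t0 * vj - (bj + u0 * wj)) * cj - η * (cj * cj) := by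
        linear_combination η * cj * e2
      rw [this]; nlinarith
  · refine ⟨t0 - η * x, h2, u0 - η * y, h4, Or.inr ⟨?_, ?_⟩⟩
    · have : (ai + (t0 - η * x) * vi - (bi + (u0 - η * y) * wi)) * ci = -(η * (ci * ci)) := by
        have : ai + (t0 - η * x) * vi - (bi + (u0 - η * y) * wi) = -(η * ci) := by
          rw [← e1]; linear_combination h0
        rw [this]; ring
      rw [this]
      have : 0 < η * (ci * ci) := by positivity
      linarith
    · have : (aj + (t0 - η * x) * vj - (bj + (u0 - η * y) * wj)) * cj =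
          (aj + t0 * vj - (bj + u0 * wj)) * cj + η * (cj * cj) := by
        linear_combination -η * cj * e2
      rw [this]; nlinarith

variable {ι : Type*} [Finite ι]

/-- the sign of all coordinate differences is constant on a rational rectangle -/
theorem split {α β : ℝ} {a b v w : ι → ℝ} (hv : ∀ k, v k ≠ 0) (c : ι → ℝ) (hc : ∀ k, c k ≠ 0)
    {i j : ι} (hind : v i * w j ≠ v j * w i)
    (h0 : ∃ t0 ∈ Ioo α β, ∃ u0 ∈ Ioo α β, a i + t0 * v i = b i + u0 * w i) :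
    ∃ q1 q2 r1 r2 : ℚ, q1 < q2 ∧ r1 < r2 ∧ α ≤ q1 ∧ (q2 : ℝ) ≤ β ∧ α ≤ r1 ∧ (r2 : ℝ) ≤ β ∧
      (∀ k, (∀ t ∈ Ioo (q1 : ℝ) q2, ∀ u ∈ Ioo (r1 : ℝ) r2,
          0 < (a k + t * v k - (b k + u * w k)) * c k) ∨
        (∀ t ∈ Ioo (q1 : ℝ) q2, ∀ u ∈ Ioo (r1 : ℝ) r2,
          (a k + t * v k - (b k + u * w k)) * c k < 0)) ∧
      (((∀ t ∈ Ioo (q1 : ℝ) q2, ∀ u ∈ Ioo (r1 : ℝ) r2,
          0 < (a i + t * v i - (b i + u * w i)) * c i) ∧
        (∀ t ∈ Ioo (q1 : ℝ) q2, ∀ u ∈ Ioo (r1 : ℝ) r2,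
          (a j + t * v j - (b j + u * w j)) * c j < 0)) ∨
       ((∀ t ∈ Ioo (q1 : ℝ) q2, ∀ u ∈ Ioo (r1 : ℝ) r2,
          (a i + t * v i - (b i + u * w i)) * c i < 0) ∧
        (∀ t ∈ Ioo (q1 : ℝ) q2, ∀ u ∈ Ioo (r1 : ℝ) r2,
          0 < (a j + t * v j - (b j + u * w j)) * c j))) := by
  obtain ⟨t0, ht0, u0, hu0, h0⟩ := h0
  obtain ⟨t1, ht1, u1, hu1, h1⟩ := planar (aj := a j) (bj := b j) hind ht0 hu0 h0 (hc i) (hc j)
  obtain ⟨g, hg⟩ : ∃ g : ι → ℝ → ℝ → ℝ, g = fun k t u => (a k + t * v k - (b k + u * w k)) * c k :=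
    ⟨_, rfl⟩
  have hcont : ∀ k, Continuous fun z : ℝ × ℝ => g k z.1 z.2 := by
    intro k; rw [hg]; fun_prop
  have hcont1 : ∀ k, Continuous fun t : ℝ => g k t u1 := by
    intro k; rw [hg]; fun_prop
  have hgv : ∀ k t u, g k t u = (a k + t * v k - (b k + u * w k)) * c k := by
    intro k t u; rw [hg]
  simp only [← hgv] at h1 ⊢
  -- generic `t2`
  have e1 : ∀ k, ∀ᶠ t in 𝓝[≠] t1, g k t u1 ≠ 0 := by
    intro k
    by_cases hk : g k t1 u1 = 0
    · filter_upwards [self_mem_nhdsWithin] with t ht h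
      have : g k t u1 - g k t1 u1 = (t - t1) * (v k * c k) := by
        simp only [hgv]; ring
      rw [h, hk, sub_zero] at this
      have h3 : (t - t1) * (v k * c k) ≠ 0 :=
        mul_ne_zero (sub_ne_zero.2 ht) (mul_ne_zero (hv k) (hc k))
      exact h3 this.symm
    · exact nhdsWithin_le_nhds ((hcont1 k).continuousAt.eventually_ne hk)
  have e2 : ∀ᶠ t in 𝓝[≠] t1, (0 < g i t u1 ∧ g j t u1 < 0) ∨ (g i t u1 < 0 ∧ 0 < g j t u1) := by
    apply nhdsWithin_le_nhds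
    rcases h1 with h1 | h1
    · filter_upwards [(hcont1 i).continuousAt.eventually_const_lt h1.1,
        (hcont1 j).continuousAt.eventually_lt_const h1.2] with t a1 a2
      exact Or.inl ⟨a1, a2⟩
    · filter_upwards [(hcont1 i).continuousAt.eventually_lt_const h1.1,
        (hcont1 j).continuousAt.eventually_const_lt h1.2] with t a1 a2
      exact Or.inr ⟨a1, a2⟩
  have e3 : ∀ᶠ t in 𝓝[≠] t1, t ∈ Ioo α β := nhdsWithin_le_nhds (isOpen_Ioo.mem_nhds ht1)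
  obtain ⟨t2, hne, hs, ht2⟩ := ((eventually_all.2 e1).and (e2.and e3)).exists
  -- a neighbourhood with constant signs
  have e4 : ∀ᶠ z in 𝓝 (t2, u1), (∀ k, (0 < g k t2 u1 → 0 < g k z.1 z.2) ∧
      (g k t2 u1 < 0 → g k z.1 z.2 < 0)) ∧ z.1 ∈ Ioo α β ∧ z.2 ∈ Ioo α β := by
    have a1 : ∀ k, ∀ᶠ z in 𝓝 (t2, u1), (0 < g k t2 u1 → 0 < g k z.1 z.2) ∧
      (g k t2 u1 < 0 → g k z.1 z.2 < 0) := by
      intro k
      rcases lt_or_gt_of_ne (hne k) with hk | hk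
      · have hca : ContinuousAt (fun z : ℝ × ℝ => g k z.1 z.2) (t2, u1) := (hcont k).continuousAt
        filter_upwards [hca.eventually_lt_const hk] with z hz
        exact ⟨fun h => absurd h (not_lt.2 hk.le), fun _ => hz⟩
      · have hca : ContinuousAt (fun z : ℝ × ℝ => g k z.1 z.2) (t2, u1) := (hcont k).continuousAt
        filter_upwards [hca.eventually_const_lt hk] with z hz
        exact ⟨fun _ => hz, fun h => absurd h (not_lt.2 hk.le)⟩
    have a2 : ∀ᶠ z : ℝ × ℝ in 𝓝 (t2, u1), z.1 ∈ Ioo α β :=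
      (isOpen_Ioo.preimage continuous_fst).mem_nhds ht2
    have a3 : ∀ᶠ z : ℝ × ℝ in 𝓝 (t2, u1), z.2 ∈ Ioo α β :=
      (isOpen_Ioo.preimage continuous_snd).mem_nhds hu1
    exact (eventually_all.2 a1).and (a2.and a3)
  obtain ⟨ε, hε, hball⟩ := Metric.eventually_nhds_iff.1 e4
  obtain ⟨q1, hq1, hq1'⟩ := exists_rat_btwn (show t2 - ε < t2 by linarith)
  obtain ⟨q2, hq2, hq2'⟩ := exists_rat_btwn (show t2 < t2 + ε by linarith)
  obtain ⟨r1, hr1, hr1'⟩ := exists_rat_btwn (show u1 - ε < u1 by linarith)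
  obtain ⟨r2, hr2, hr2'⟩ := exists_rat_btwn (show u1 < u1 + ε by linarith)
  have hin : ∀ t ∈ Icc (q1 : ℝ) q2, ∀ u ∈ Icc (r1 : ℝ) r2, dist (t, u) (t2, u1) < ε := by
    intro t ht u hu
    rw [Prod.dist_eq, max_lt_iff]
    constructor
    · simp only [Real.dist_eq, abs_lt]
      exact ⟨by linarith [ht.1], by linarith [ht.2]⟩
    · simp only [Real.dist_eq, abs_lt]
      exact ⟨by linarith [hu.1], by linarith [hu.2]⟩
  have hq : (q1 : ℝ) < q2 := hq1'.trans hq2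
  have hr : (r1 : ℝ) < r2 := hr1'.trans hr2
  have b1 := (hball (hin q1 ⟨le_rfl, hq.le⟩ r1 ⟨le_rfl, hr.le⟩)).2
  have b2 := (hball (hin q2 ⟨hq.le, le_rfl⟩ r2 ⟨hr.le, le_rfl⟩)).2
  have hsign : ∀ k, ∀ t ∈ Ioo (q1 : ℝ) q2, ∀ u ∈ Ioo (r1 : ℝ) r2,
      (0 < g k t2 u1 → 0 < g k t u) ∧ (g k t2 u1 < 0 → g k t u < 0) := fun k t ht u hu =>
    (hball (hin t ⟨ht.1.le, ht.2.le⟩ u ⟨hu.1.le, hu.2.le⟩)).1 k
  refine ⟨q1, q2, r1, r2, by exact_mod_cast hq, by exact_mod_cast hr, b1.1.1.le, b2.1.2.le,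
    b1.2.1.le, b2.2.2.le, fun k => ?_, ?_⟩
  · rcases lt_or_gt_of_ne (hne k) with hk | hk
    · exact Or.inr fun t ht u hu => (hsign k t ht u hu).2 hk
    · exact Or.inl fun t ht u hu => (hsign k t ht u hu).1 hk
  · rcases hs with hs | hs
    · exact Or.inl ⟨fun t ht u hu => (hsign i t ht u hu).1 hs.1,
        fun t ht u hu => (hsign j t ht u hu).2 hs.2⟩
    · exact Or.inr ⟨fun t ht u hu => (hsign i t ht u hu).2 hs.1,
        fun t ht u hu => (hsign j t ht u hu).1 hs.2⟩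

end Pool.Agent.V11222.KO
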